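import Pool.Agent.helper22.GS.Spec

/-!
# Project gs (MP_561ff4_al), module EF: finite extensions of finite fields
-/

set_option autoImplicit false

namespace Pool.Agent.GS

open Module

theorem EF_gen {L : Type} [Field L] [Finite L] :
    ∃ g : L, g ≠ 0 ∧ orderOf g = Nat.card L - 1 := by
  obtain ⟨g, hg⟩ := IsCyclic.exists_generator (α := Lˣ)
  refine ⟨(g : L), g.ne_zero, ?_⟩
  rw [orderOf_units, orderOf_eq_card_of_forall_mem_zpowers hg, Nat.card_units]

theorem EF : EF_stmt := by
  intro F _ _ m hm
  haveI : NeZero m := ⟨by omega⟩
  haveI hp : Fact (Nat.Prime (ringChar F)) := ⟨CharP.prime_ringChar F⟩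
  haveI : CharP F (ringChar F) := ringChar.charP F
  let K : Type := FiniteField.Extension F (ringChar F) m
  haveI : CharP K (ringChar F) :=
    charP_of_injective_algebraMap (algebraMap F K).injective (ringChar F)
  let E : Type := FiniteField.Extension K (ringChar F) 2
  have hE : Nat.card E = Nat.card K ^ 2 := FiniteField.natCard_extension K (ringChar F) 2
  refine ⟨K, E, inferInstance, inferInstance, inferInstance, inferInstance, inferInstance,
    inferInstance, FiniteField.finrank_extension F (ringChar F) m,
    FiniteField.natCard_extension F (ringChar F) m, ?_, EF_gen, ?_⟩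
  · obtain ⟨g, hg0, hg⟩ := EF_gen (L := E)
    exact ⟨g, hg0, by rw [hg, hE]⟩
  · intro x hx
    have h1 : x ∈ Set.range (algebraMap K E) := by
      rw [IsGalois.mem_range_algebraMap_iff_fixed]
      intro f
      obtain ⟨i, -, hi⟩ := FiniteField.Extension.exists_frob_pow_eq K (ringChar F) 2 f
      rw [← hi]
      clear hi
      induction i with
      | zero => rfl
      | succ i ih =>
        rw [pow_succ, AlgEquiv.mul_apply, FiniteField.Extension.frob_apply, hx, ih]
    exact h1

end Pool.Agent.GS
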