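import Pool.Agent.helper22.GS.Spec

/-!
# Project gs (MP_561ff4_al), module OB: orthonormal bases in characteristic two
-/

set_option autoImplicit false

namespace Pool.Agent.GS

open Module

theorem OB_cons {F W : Type} [Field F] [AddCommGroup W] [Module F W]
    (b : LinearMap.BilinForm F W) (hb : Sym b) {k : ℕ} (v : Fin k → W)
    (hv : Orth b v (fun _ => 1)) (x : W) (hx : b x x = 1) (hxv : ∀ i, b x (v i) = 0) :
    Orth b (Fin.cons x v : Fin (k + 1) → W) (fun _ => 1) := by
  intro i j
  refine Fin.cases ?_ (fun i => ?_) i
  · refine Fin.cases ?_ (fun j => ?_) j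
    · simp only [Fin.cons_zero, if_true]
      exact hx
    · rw [Fin.cons_zero, Fin.cons_succ, if_neg (Fin.succ_ne_zero j).symm]
      exact hxv j
  · refine Fin.cases ?_ (fun j => ?_) j
    · rw [Fin.cons_zero, Fin.cons_succ, if_neg (Fin.succ_ne_zero i), hb.symm]
      exact hxv i
    · rw [Fin.cons_succ, Fin.cons_succ, hv i j]
      simp only [Fin.succ_inj]

theorem OB_li {F W : Type} [Field F] [AddCommGroup W] [Module F W]
    (b : LinearMap.BilinForm F W) {k : ℕ} (v : Fin k → W)
    (hv : Orth b v (fun _ => 1)) : LinearIndependent F v := by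
  rw [Fintype.linearIndependent_iff]
  intro g hg i
  have h1 : b (∑ j, g j • v j) (v i) = 0 := by
    rw [hg, map_zero, LinearMap.zero_apply]
  rw [map_sum, LinearMap.sum_apply, Finset.sum_eq_single i] at h1
  · rw [map_smul, LinearMap.smul_apply, hv i i, if_pos rfl, smul_eq_mul, mul_one] at h1
    exact h1
  · intro j _ hj
    rw [map_smul, LinearMap.smul_apply, hv j i, if_neg hj, smul_zero]
  · intro h
    exact absurd (Finset.mem_univ i) h

theorem OB : OB_stmt := by
  intro F W ι _ _ _ _ _ _ _ b hch hb β hx
  set n := finrank F W with hn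
  have hbd : ∀ k, (∃ v : Fin k → W, Orth b v (fun _ => 1)) → k ≤ n := by
    rintro k ⟨v, hv⟩
    have h := (OB_li b v hv).fintype_card_le_finrank
    rwa [Fintype.card_fin] at h
  have h2 : (2 : F) = 0 := by
    haveI : CharP F 2 := by rw [← hch]; exact ringChar.charP F
    have := CharP.cast_eq_zero F 2
    exact_mod_cast this
  have hneg : ∀ a : F, a + a = 0 := fun a => by rw [← two_mul, h2, zero_mul]
  -- scaling
  have hsc : ∀ x : W, b x x ≠ 0 → ∃ s : F, b (s • x) (s • x) = 1 := by
    intro x hx
    obtain ⟨s, hs⟩ := FiniteField.isSquare_of_char_two hch (b x x)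
    have hs0 : s ≠ 0 := by
      rintro rfl
      rw [mul_zero] at hs
      exact hx hs
    refine ⟨s⁻¹, ?_⟩
    rw [map_smul, map_smul, LinearMap.smul_apply, smul_eq_mul, smul_eq_mul, hs]
    field_simp
  -- the maximal size
  let P : ℕ → Prop := fun k => ∃ v : Fin k → W, Orth b v (fun _ => 1)
  have hP0 : P 0 := ⟨Fin.elim0, fun i => i.elim0⟩
  classical
  set k := Nat.findGreatest P n with hk
  have hPk : P k := Nat.findGreatest_spec (P := P) (Nat.zero_le n) hP0
  have hmax : ∀ l, P l → l ≤ k := fun l hl => Nat.le_findGreatest (hbd l hl) hl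
  have hk1 : 1 ≤ k := by
    obtain ⟨x, hx⟩ := hx
    obtain ⟨s, hs⟩ := hsc x hx
    apply hmax 1
    have h := OB_cons b hb (Fin.elim0 : Fin 0 → W) (fun i => i.elim0) (s • x) hs
      (fun i => i.elim0)
    exact ⟨_, h⟩
  obtain ⟨v, hv⟩ := hPk
  have hkn : k = n := by
    by_contra hne
    have hlt : k < n := lt_of_le_of_ne (hbd k ⟨v, hv⟩) hne
    -- projection
    have hproj : ∀ y : W, ∀ j, b (y - ∑ i, b y (v i) • v i) (v j) = 0 := by
      intro y j
      rw [map_sub, LinearMap.sub_apply, map_sum, LinearMap.sum_apply, Finset.sum_eq_single j]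
      · rw [map_smul, LinearMap.smul_apply, hv j j, if_pos rfl, smul_eq_mul, mul_one, sub_self]
      · intro i _ hi
        rw [map_smul, LinearMap.smul_apply, hv i j, if_neg hi, smul_zero]
      · intro h
        exact absurd (Finset.mem_univ j) h
    -- a nonzero vector orthogonal to all `v i`
    have hex : ∃ e : W, e ≠ 0 ∧ ∀ j, b e (v j) = 0 := by
      by_contra hno
      push Not at hno
      have hspan : (⊤ : Submodule F W) ≤ Submodule.span F (Set.range v) := by
        intro y _
        have h0 : y - ∑ i, b y (v i) • v i = 0 := by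
          by_contra h
          obtain ⟨j, hj⟩ := hno _ h
          exact hj (hproj y j)
        rw [sub_eq_zero] at h0
        rw [h0]
        exact Submodule.sum_mem _ fun i _ => Submodule.smul_mem _ _
          (Submodule.subset_span ⟨i, rfl⟩)
      have h3 : finrank F W ≤ k := by
        have h4 := finrank_range_le_card (R := F) v
        rw [Fintype.card_fin, Set.finrank, top_le_iff.1 hspan, finrank_top] at h4
        exact h4
      omega
    -- no vector of nonzero norm orthogonal to all `v i`
    have halt : ∀ x : W, (∀ j, b x (v j) = 0) → b x x = 0 := by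
      intro x hxv
      by_contra hx
      obtain ⟨s, hs⟩ := hsc x hx
      have h := OB_cons b hb v hv (s • x) hs (fun i => by
        rw [map_smul, LinearMap.smul_apply, hxv i, smul_zero])
      have := hmax (k + 1) ⟨_, h⟩
      omega
    obtain ⟨e, he0, hev⟩ := hex
    have hy : ∃ y, b e y ≠ 0 := by
      by_contra h
      push Not at h
      exact he0 (hb.nd e h)
    obtain ⟨y, hy⟩ := hy
    set f0 := y - ∑ i, b y (v i) • v i with hf0
    have hef0 : b e f0 = b e y := by
      rw [hf0, map_sub, map_sum, Finset.sum_eq_zero, sub_zero]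
      intro i _
      rw [map_smul, hev i, smul_zero]
    set f := (b e y)⁻¹ • f0 with hf
    have hfv : ∀ j, b f (v j) = 0 := by
      intro j
      rw [hf, map_smul, LinearMap.smul_apply, hproj y j, smul_zero]
    have hef : b e f = 1 := by
      rw [hf, map_smul, hef0, smul_eq_mul, inv_mul_cancel₀ hy]
    have hfe : b f e = 1 := by rw [hb.symm, hef]
    have hee : b e e = 0 := halt e hev
    have hff : b f f = 0 := halt f hfv
    obtain ⟨k', hk'⟩ : ∃ k', k = k' + 1 := ⟨k - 1, by omega⟩
    clear_value k
    subst hk'
    set x := v 0 with hxdef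
    set w : Fin k' → W := fun i => v i.succ with hw
    have hwo : Orth b w (fun _ => 1) := by
      intro i j
      rw [hw]
      simp only
      rw [hv i.succ j.succ]
      simp only [Fin.succ_inj]
    have hxx : b x x = 1 := by rw [hxdef, hv 0 0, if_pos rfl]
    have hxw : ∀ i, b x (w i) = 0 := fun i => by
      rw [hxdef, hw]
      simp only
      rw [hv 0 i.succ, if_neg (Fin.succ_ne_zero i).symm]
    have hex0 : b e x = 0 := hev 0
    have hfx0 : b f x = 0 := hfv 0
    have hxe0 : b x e = 0 := by rw [hb.symm, hex0]
    have hxf0 : b x f = 0 := by rw [hb.symm, hfx0]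
    have hew : ∀ i, b e (w i) = 0 := fun i => hev i.succ
    have hfw : ∀ i, b f (w i) = 0 := fun i => hfv i.succ
    have s1 := OB_cons b hb w hwo (x + e + f)
      (by simp only [map_add, LinearMap.add_apply, hxx, hxe0, hxf0, hex0, hfx0, hee, hff, hef,
            hfe]
          linear_combination hneg 1)
      (fun i => by simp only [map_add, LinearMap.add_apply, hxw, hew, hfw]; ring)
    have s2 := OB_cons b hb _ s1 (x + f)
      (by simp only [map_add, LinearMap.add_apply, hxx, hxf0, hfx0, hff]; ring)
      (fun i => by
        refine Fin.cases ?_ (fun i => ?_) i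
        · rw [Fin.cons_zero]
          simp only [map_add, LinearMap.add_apply, hxx, hxe0, hxf0, hex0, hfx0, hee, hff, hef,
            hfe]
          linear_combination hneg 1
        · rw [Fin.cons_succ]
          simp only [map_add, LinearMap.add_apply, hxw, hfw]; ring)
    have s3 := OB_cons b hb _ s2 (x + e)
      (by simp only [map_add, LinearMap.add_apply, hxx, hxe0, hex0, hee]; ring)
      (fun i => by
        refine Fin.cases ?_ (fun i => ?_) i
        · rw [Fin.cons_zero]
          simp only [map_add, LinearMap.add_apply, hxx, hxe0, hxf0, hex0, hfx0, hee, hff, hef,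
            hfe]
          linear_combination hneg 1
        · rw [Fin.cons_succ]
          refine Fin.cases ?_ (fun i => ?_) i
          · rw [Fin.cons_zero]
            simp only [map_add, LinearMap.add_apply, hxx, hxe0, hxf0, hex0, hfx0, hee, hff, hef,
              hfe]
            linear_combination hneg 1
          · rw [Fin.cons_succ]
            simp only [map_add, LinearMap.add_apply, hxw, hew]; ring)
    have := hmax (k' + 1 + 1 + 1) ⟨_, s3⟩
    omega
  -- the basis
  have hcard : Fintype.card (Fin k) = finrank F W := by rw [Fintype.card_fin, hkn]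
  have hι : Fintype.card ι = Fintype.card (Fin k) := by
    rw [hcard, finrank_eq_card_basis β]
  have : Nonempty (Fin k) := ⟨⟨0, by omega⟩⟩
  let u0 : Basis (Fin k) F W := basisOfLinearIndependentOfCardEqFinrank (OB_li b v hv) hcard
  have hu0 : ∀ i, u0 i = v i := fun i => by
    show (basisOfLinearIndependentOfCardEqFinrank _ _ : Basis (Fin k) F W) i = v i
    rw [coe_basisOfLinearIndependentOfCardEqFinrank]
  let e : Fin k ≃ ι := (Fintype.equivOfCardEq hι).symm
  refine ⟨u0.reindex e, fun i j => ?_⟩
  rw [Basis.reindex_apply, Basis.reindex_apply, hu0, hu0, hv]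
  simp only [EmbeddingLike.apply_eq_iff_eq]

end Pool.Agent.GS
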