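import Pool.Agent.helper22.GS.Spec

/-!
# Project gs (MP_561ff4_al), module FIN: the result
-/

set_option autoImplicit false

namespace Pool.Agent.GS

open Module

theorem FIN (hFU : FU_stmt) (hFL : FL_stmt) (hFO : FO_stmt) (hBE : BE_stmt) (hPR : PR_stmt) :
    FIN_stmt := by
  intro n F _ _ hn
  refine ⟨?_, ?_⟩
  · intro x hx hx1 r hr hr2 hdvd
    obtain ⟨h1, h2, h3⟩ := hFU n F hn x hx hx1 r hr hr2
    have hr3 : 3 ≤ r := by
      have := hr.two_le
      omega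
    have hmem : r - 1 ∈ CSet r x := (hBE r x (r - 1)).2 ⟨by omega, h3 hdvd⟩
    have hne : (CSet r x).Nonempty := ⟨_, hmem⟩
    refine ⟨sInf (CSet r x), ⟨Nat.sInf_mem hne, fun k hk => Nat.sInf_le hk⟩,
      Nat.sInf_le hmem, ?_, ?_⟩
    · intro h
      exact Nat.sInf_le ((hBE r x 2).2 ⟨by omega, h1 h⟩)
    · intro m hm hmn h
      exact Nat.sInf_le ((hBE r x (2 * m)).2 ⟨by omega, h2 m hm hmn h⟩)
  · obtain ⟨t, w, a, ht, hP, ho⟩ := hFO n F hn
    refine ⟨MulAut.conj (QuotientGroup.mk t : PSp n F), hP, ho, ?_⟩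
    intro r hr hr2 hdvd hndvd m hm
    have hx1 : MulAut.conj (QuotientGroup.mk t : PSp n F) ≠ 1 := by
      intro h
      rw [h, orderOf_one] at ho
      have hp : Nat.Prime (ringChar F) := by
        haveI : Fact (Nat.Prime (ringChar F)) := ⟨CharP.prime_ringChar F⟩
        exact Fact.out
      exact hp.one_lt.ne ho
    obtain ⟨h1, h2, h3⟩ := hFU n F hn _ hP hx1 r hr hr2
    have hmn : m ≤ n := by
      rcases hPR n F r (by omega) hr hdvd with h | ⟨m', hm1, hm2, hm3⟩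
      · exact absurd h hndvd
      · exact (hm.2 ⟨hm1, hm3⟩).trans hm2
    have hm1 : 1 ≤ m := hm.1.1
    refine ⟨(hBE r _ (2 * m)).2 ⟨by omega, h2 m hm1 hmn hm.1.2⟩, ?_⟩
    intro k hk
    obtain ⟨hk1, hk2⟩ := (hBE r _ k).1 hk
    obtain ⟨i, hi1, hi2, hi3⟩ := hFL n F (by omega) t w a ht k r hr hndvd hk2
    have := hm.2 ⟨hi1, hi3⟩
    omega

end Pool.Agent.GS
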